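import Mathlib

/-! A quartic whose graph has a single curvature-critical point. -/

namespace Pool.Agent.Results.MP_4bcb19_an.OneCrit

open Polynomial

/-- signed curvature of the graph of `p` -/
noncomputable def curv (p : ℝ[X]) (x : ℝ) : ℝ :=
  p.derivative.derivative.eval x / (1 + p.derivative.eval x ^ 2) ^ (3 / 2 : ℝ)

theorem result : ∃ p : ℝ[X], p.natDegree = 4 ∧
    ∀ x : ℝ, IsLocalMax (curv p) x ∨ IsLocalMin (curv p) x ∨ deriv (curv p) x = 0 → x = 0 := by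
  refine ⟨X ^ 4 + 2 * X ^ 2, by compute_degree!, fun x hx => ?_⟩
  have e : curv (X ^ 4 + 2 * X ^ 2) =
      fun x => (12 * x ^ 2 + 4) / (1 + (4 * x ^ 3 + 4 * x) ^ 2) ^ (3 / 2 : ℝ) := by
    ext x
    have h1 : derivative (X ^ 4 + 2 * X ^ 2 : ℝ[X]) = 4 * X ^ 3 + 4 * X := by
      simp [derivative_mul, map_ofNat]; ring
    have h2 : derivative (4 * X ^ 3 + 4 * X : ℝ[X]) = 12 * X ^ 2 + 4 := by
      simp [derivative_mul, map_ofNat]; ring
    simp [curv, h1, h2]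
  have h0 : deriv (curv (X ^ 4 + 2 * X ^ 2)) x = 0 := by
    rcases hx with h | h | h
    exacts [h.deriv_eq_zero, h.deriv_eq_zero, h]
  have hw : 0 < 1 + (4 * x ^ 3 + 4 * x) ^ 2 := by positivity
  have d1 : HasDerivAt (fun x : ℝ => 12 * x ^ 2 + 4) (24 * x) x := by
    refine (((hasDerivAt_pow 2 x).const_mul 12).add_const 4).congr_deriv ?_
    push_cast; ring
  have d2 : HasDerivAt (fun x : ℝ => 1 + (4 * x ^ 3 + 4 * x) ^ 2)
      (2 * (4 * x ^ 3 + 4 * x) * (12 * x ^ 2 + 4)) x := by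
    refine (((((hasDerivAt_pow 3 x).const_mul 4).fun_add
      ((hasDerivAt_id' x).const_mul 4)).fun_pow 2).const_add 1).congr_deriv ?_
    push_cast; ring
  have d3 := d1.fun_div (d2.rpow_const (p := 3 / 2) (Or.inl hw.ne')) (by positivity)
  rw [e, d3.deriv, div_eq_zero_iff] at h0
  have h1 := h0.resolve_right (by positivity)
  have h2 : (1 + (4 * x ^ 3 + 4 * x) ^ 2) ^ (3 / 2 : ℝ) =
      (1 + (4 * x ^ 3 + 4 * x) ^ 2) ^ (3 / 2 - 1 : ℝ) * (1 + (4 * x ^ 3 + 4 * x) ^ 2) := by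
    rw [← Real.rpow_add_one hw.ne']; norm_num
  rw [h2] at h1
  have h3 : 0 < (1 + (4 * x ^ 3 + 4 * x) ^ 2) ^ (3 / 2 - 1 : ℝ) := by positivity
  generalize (1 + (4 * x ^ 3 + 4 * x) ^ 2) ^ (3 / 2 - 1 : ℝ) = w at h1 h3
  have h4 : x * (w * (1344 * x ^ 6 + 2112 * x ^ 4 + 960 * x ^ 2 + 168)) = 0 := by
    linear_combination -h1
  exact (mul_eq_zero.1 h4).resolve_right (by positivity)

end Pool.Agent.Results.MP_4bcb19_an.OneCrit
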